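import Pool.Agent.H7.TRI.Stmts

/-!
# Row PZI of the board `tri` (helper93)
-/

set_option autoImplicit false

open Finset

namespace Pool.TRI

theorem PZI_thm (h1 : LKBStmt) (h2 : OUTStmt) (h3 : DSJStmt) : PZIStmt := by
  intro V _ _ G d m hH C hC v hv hdf
  unfold pay
  refine sum_eq_zero fun C' hC' => sum_eq_zero fun w hw => ?_
  rw [mem_filter] at hC'
  rw [mem_inter] at hw
  obtain ⟨hC1, hvC'⟩ := hC'
  have hne : C ≠ C' := fun h => hvC' (h ▸ (mem_XX.1 hv).1)
  have hdisj := h3 V G d m hH C hC C' hC1 hne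
  have hvw : v ∈ nb G w := mem_nb.2 (mem_nb.1 hw.2).symm
  obtain ⟨-, h4⟩ := h1 V G d m hH C' hC1 w hw.1
  obtain ⟨-, h5, -, -⟩ := h4 v hvw hvC'
  have hc : (nb G v ∩ XX G C').card ≤ 1 := by
    have h6 := (h2 V G d m hH C hC v hv).2.1
    rw [hdf] at h6
    refine (card_le_card ?_).trans h6
    intro u hu
    rw [mem_inter] at hu
    rw [mem_sdiff]
    exact ⟨hu.1, fun huC => disjoint_left.1 hdisj huC (mem_XX.1 hu.2).1⟩
  have hc' : ((nb G v ∩ XX G C').card : ℤ) ≤ 1 := by exact_mod_cast hc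
  exact le_antisymm (by linarith) (lk_nonneg d C' w)

end Pool.TRI
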